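import Mathlib

set_option autoImplicit false

namespace Pool.Agent.Results.MP_ace4dd_an.NotMonotone

open Set Filter Topology Real

/-- `g` is a unimodal map of `[-1, 1]` with turning point `c`. -/
def Unimodal (g : ℝ → ℝ) (c : ℝ) : Prop :=
  ContinuousOn g (Icc (-1) 1) ∧ MapsTo g (Icc (-1) 1) (Icc (-1) 1) ∧ g (-1) = -1 ∧ g 1 = -1 ∧
    c ∈ Ioo (-1 : ℝ) 1 ∧ StrictMonoOn g (Icc (-1) c) ∧ StrictAntiOn g (Icc c 1)

/-- The coefficient `θ_i(x)` of the kneading coordinate. -/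
noncomputable def theta (g : ℝ → ℝ) (x : ℝ) (i : ℕ) : SignType := SignType.sign (deriv g^[i + 1] x)

open Classical in
/-- The kneading sequence: the eventual value of `θ_i(y)` as `y ↑ g c`. -/
noncomputable def kneading (g : ℝ → ℝ) (c : ℝ) (i : ℕ) : SignType :=
  if ∀ᶠ y in 𝓝[<] (g c), theta g y i = 1 then 1
  else if ∀ᶠ y in 𝓝[<] (g c), theta g y i = -1 then -1 else 0

/-- The quadratic family. -/
def quad (μ x : ℝ) : ℝ := μ - 1 - μ * x ^ 2

lemma kn_pos {g g' : ℝ → ℝ} {c : ℝ} (hg : ∀ x, HasDerivAt g (g' x) x) (ha : StrictAnti g')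
    (hc : g' c = 0) (h : g c ≤ c) : kneading g c 0 = 1 := by
  refine if_pos (eventually_nhdsWithin_of_forall fun y hy => ?_)
  simp only [theta, zero_add, Function.iterate_one, (hg y).deriv, sign_eq_one_iff]
  exact hc ▸ ha (lt_of_lt_of_le hy h)

lemma kn_neg {g g' : ℝ → ℝ} {c : ℝ} (hg : ∀ x, HasDerivAt g (g' x) x) (ha : StrictAnti g')
    (hc : g' c = 0) (h : c < g c) : kneading g c 0 = -1 := by
  have h1 : ∀ᶠ y in 𝓝[<] (g c), theta g y 0 = -1 := by
    filter_upwards [Ioo_mem_nhdsLT h] with y hy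
    simp only [theta, zero_add, Function.iterate_one, (hg y).deriv, sign_eq_neg_one_iff]
    exact hc ▸ ha hy.1
  rw [kneading, if_neg, if_pos h1]
  intro h2
  obtain ⟨y, h3, h4⟩ := (h1.and h2).exists
  rw [h3] at h4
  exact absurd h4 (by decide)

lemma one {a μ s : ℝ} (k : ℕ) (ha : 0 < a) (ha1 : a ≤ 1 / 3) (hk : k * π * a = 1)
    (hμ : μ ∈ Ioc (0 : ℝ) 2) (hs : |s| ≤ a * (μ * (2 - μ))) :
    ∃ c, Unimodal (fun x => quad μ x + s * (a * sin (k * π * x))) c ∧
      (∀ x, HasDerivAt (fun x => quad μ x + s * (a * sin (k * π * x)))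
        (-2 * μ * x + s * cos (k * π * x)) x) ∧
      StrictAnti (fun x => -2 * μ * x + s * cos (k * π * x)) ∧
      -2 * μ * c + s * cos (k * π * c) = 0 := by
  obtain ⟨h0, h2⟩ := hμ
  have dl : ∀ x, HasDerivAt (fun x => k * π * x) (k * π) x := fun x => by
    simpa using (hasDerivAt_id x).const_mul (k * π)
  have d1 : ∀ x, HasDerivAt (fun x => quad μ x + s * (a * sin (k * π * x)))
      (-2 * μ * x + s * cos (k * π * x)) x := fun x => by
    convert! (((hasDerivAt_pow 2 x).const_mul μ).const_sub (μ - 1)).add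
      (((dl x).sin.const_mul a).const_mul s) using 1
    simp only [Nat.cast_ofNat, Nat.add_one_sub_one, pow_one]
    linear_combination (-s * cos (k * π * x)) * hk
  have hsb : ∀ t, |t| ≤ 1 → |s * t| ≤ a * (μ * (2 - μ)) := fun t ht => by
    rw [abs_mul]; nlinarith [abs_nonneg s, abs_nonneg t]
  have d2 : StrictAnti (fun x => -2 * μ * x + s * cos (k * π * x)) := by
    refine strictAnti_of_deriv_neg fun x => ?_
    rw [(((hasDerivAt_id' x).const_mul (-2 * μ)).fun_add ((dl x).cos.const_mul s)).deriv]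
    have h3 := (abs_le.1 (hsb _ (abs_sin_le_one (k * π * x)))).1
    have h4 : 0 < k * π := by by_contra h; nlinarith
    have h5 := mul_le_mul_of_nonneg_right h3 h4.le
    have h6 : -(a * (μ * (2 - μ))) * (k * π) = -(μ * (2 - μ)) := by
      linear_combination (-(μ * (2 - μ))) * hk
    nlinarith [mul_pos h0 h0]
  have e1 := (abs_le.1 (hsb _ (abs_cos_le_one (k * π * (-1))))).1
  have e2 := (abs_le.1 (hsb _ (abs_cos_le_one (k * π * 1)))).2
  have e3 : a * (μ * (2 - μ)) < 2 * μ := by nlinarith [mul_pos ha (mul_pos h0 h0)]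
  obtain ⟨c, hc, hc0⟩ := intermediate_value_Ioo' (show (-1 : ℝ) ≤ 1 by norm_num)
    (f := fun x => -2 * μ * x + s * cos (k * π * x)) (by fun_prop)
    (show (0 : ℝ) ∈ _ from ⟨by linarith, by linarith⟩)
  have hco : Continuous fun x => quad μ x + s * (a * sin (k * π * x)) := by
    unfold quad; fun_prop
  have m1 : StrictMonoOn (fun x => quad μ x + s * (a * sin (k * π * x))) (Icc (-1) c) :=
    strictMonoOn_of_deriv_pos (convex_Icc _ _) hco.continuousOn fun x hx => by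
      rw [interior_Icc] at hx
      rw [(d1 x).deriv]; exact hc0 ▸ d2 hx.2
  have m2 : StrictAntiOn (fun x => quad μ x + s * (a * sin (k * π * x))) (Icc c 1) :=
    strictAntiOn_of_deriv_neg (convex_Icc _ _) hco.continuousOn fun x hx => by
      rw [interior_Icc] at hx
      rw [(d1 x).deriv]; exact hc0 ▸ d2 hx.1
  have b1 : quad μ (-1) + s * (a * sin (k * π * (-1))) = -1 := by simp [quad]
  have b2 : quad μ 1 + s * (a * sin (k * π * 1)) = -1 := by simp [quad]
  refine ⟨c, ⟨hco.continuousOn, fun x hx => ⟨?_, ?_⟩, b1, b2, hc, m1, m2⟩, d1, d2, hc0⟩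
  · rcases le_total x c with h | h
    · exact b1.ge.trans (m1.monotoneOn ⟨le_rfl, hc.1.le⟩ ⟨hx.1, h⟩ hx.1)
    · exact b2.ge.trans (m2.antitoneOn ⟨h, hx.2⟩ ⟨hc.2.le, le_rfl⟩ hx.2)
  · have h3 := (abs_le.1 (hsb _ (abs_sin_le_one (k * π * x)))).2
    have h4 := mul_le_mul_of_nonneg_left h3 ha.le
    have h5 : a * a * μ ≤ 1 := by nlinarith
    simp only [quad]
    nlinarith [mul_nonneg h0.le (sq_nonneg x)]

theorem result (ε : ℝ) (hε : 0 < ε) : ∃ (g : ℝ → ℝ → ℝ) (c : ℝ → ℝ),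
    ContDiff ℝ 1 (fun p : ℝ × ℝ => g p.2 p.1) ∧ (∀ μ ∈ Ioc (0 : ℝ) 2, Unimodal (g μ) (c μ)) ∧
    (∃ δ < ε, ∀ x ∈ Icc (-1 : ℝ) 1, ∀ μ ∈ Ioc (0 : ℝ) 2, |g μ x - quad μ x| +
      |deriv (fun y => g μ y - quad μ y) x| + |deriv (fun ν => g ν x - quad ν x) μ| ≤ δ) ∧
    ¬ MonotoneOn (fun μ => toLex (kneading (g μ) (c μ))) (Ioc 0 2) ∧
    ¬ AntitoneOn (fun μ => toLex (kneading (g μ) (c μ))) (Ioc 0 2) := by
  obtain ⟨k, hk⟩ := exists_nat_gt (max 1 (30 / ε))
  rw [max_lt_iff] at hk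
  have hpi := pi_gt_three
  have hpi' := pi_lt_d2
  have hkp : 3 < k * π := by nlinarith
  obtain ⟨a, ha, hka⟩ : ∃ a : ℝ, 0 < a ∧ k * π * a = 1 :=
    ⟨1 / (k * π), one_div_pos.2 (by linarith), mul_one_div_cancel (by linarith)⟩
  have ha1 : a ≤ 1 / 3 := by nlinarith
  have ha2 : 30 * a < ε := by
    have := (div_lt_iff₀ hε).1 hk.2
    nlinarith [mul_pos ha hε, mul_pos (mul_pos ha hε) (show (0 : ℝ) < k by linarith)]
  let s : ℝ → ℝ := fun μ => a * (μ * (2 - μ)) * sin (8 * π / a * (μ - (1 + a / 16)))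
  have hs : ∀ μ ∈ Ioc (0 : ℝ) 2, |s μ| ≤ a * (μ * (2 - μ)) := fun μ hμ => by
    have : 0 ≤ a * (μ * (2 - μ)) := mul_nonneg ha.le (mul_nonneg hμ.1.le (by linarith [hμ.2]))
    simp only [s]
    rw [abs_mul, abs_of_nonneg this]
    exact mul_le_of_le_one_right this (abs_sin_le_one _)
  choose! c hc1 hc2 hc3 hc4 using fun μ hμ => one k ha ha1 hka hμ (hs μ hμ)
  have m1 : 1 + a / 16 ∈ Ioc (0 : ℝ) 2 := ⟨by linarith, by linarith⟩
  have m2 : 1 + a / 8 ∈ Ioc (0 : ℝ) 2 := ⟨by linarith, by linarith⟩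
  have m3 : (2 : ℝ) ∈ Ioc (0 : ℝ) 2 := ⟨by linarith, by linarith⟩
  have neg : ∀ μ ∈ Ioc (0 : ℝ) 2, 1 < μ → s μ = 0 →
      kneading (fun x => quad μ x + s μ * (a * sin (k * π * x))) (c μ) 0 = -1 := by
    intro μ hμ h1 h2
    refine kn_neg (hc2 μ hμ) (hc3 μ hμ) (hc4 μ hμ) ?_
    have h3 := hc4 μ hμ
    rw [h2] at h3 ⊢
    have h4 : c μ = 0 := by nlinarith
    simp only [quad, h4]
    linarith
  have k1 := neg _ m1 (by linarith) (by simp [s])
  have k3 := neg _ m3 (by linarith) (by simp [s])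
  have k2 := kn_pos (hc2 _ m2) (hc3 _ m2) (hc4 _ m2) (by
    have h1 : s (1 + a / 8) = a * (1 - (a / 8) ^ 2) := by
      simp only [s]
      rw [show 8 * π / a * (1 + a / 8 - (1 + a / 16)) = π / 2 by field_simp; ring, sin_pi_div_two]
      ring
    have h2 : a / 4 < c (1 + a / 8) := by
      rw [← (hc3 _ m2).lt_iff_gt, hc4 _ m2, h1, show k * π * (a / 4) = 1 / 4 by linarith]
      have h3 := one_sub_sq_div_two_le_cos (x := 1 / 4)
      have h5 : 9 / 10 ≤ 1 - (a / 8) ^ 2 := by nlinarith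
      have h6 := mul_le_mul h5 h3 (by norm_num) (by linarith)
      have h4 : 0 < (1 - (a / 8) ^ 2) * cos (1 / 4) - (1 + a / 8) / 2 := by linarith
      nlinarith [mul_pos ha h4]
    rw [h1]
    generalize c (1 + a / 8) = x at h2
    have h3 : a * sin (k * π * x) ≤ x := by
      have := mul_le_mul_of_nonneg_left (sin_le (show 0 ≤ k * π * x by nlinarith)) ha.le
      nlinarith
    have h4 : 0 ≤ a * (1 - (a / 8) ^ 2) := by nlinarith
    have h5 := mul_le_mul_of_nonneg_left h3 h4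
    have h6 : a * (1 - (a / 8) ^ 2) * x ≤ a * x := by
      nlinarith [mul_nonneg (mul_nonneg ha.le (sq_nonneg (a / 8))) (show 0 ≤ x by linarith)]
    simp only [quad]
    nlinarith [sq_nonneg (x - a / 2), mul_nonneg ha.le (sq_nonneg x)])
  refine ⟨fun μ x => quad μ x + s μ * (a * sin (k * π * x)), c, by unfold quad; fun_prop, hc1,
    ⟨30 * a, ha2, fun x _ μ hμ => ?_⟩, fun h => ?_, fun h => ?_⟩
  · simp only [add_sub_cancel_left]
    have dl : HasDerivAt (fun x => k * π * x) (k * π) x := by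
      simpa using (hasDerivAt_id x).const_mul (k * π)
    have dm : HasDerivAt (fun μ => 8 * π / a * (μ - (1 + a / 16))) (8 * π / a) μ := by
      simpa using ((hasDerivAt_id μ).sub_const (1 + a / 16)).const_mul (8 * π / a)
    have dq : HasDerivAt (fun μ => a * (μ * (2 - μ))) (a * (2 - 2 * μ)) μ := by
      convert! ((hasDerivAt_id' μ).fun_mul ((hasDerivAt_id' μ).const_sub 2)).const_mul a using 1
      ring
    rw [((dl.sin.const_mul a).const_mul (s μ)).deriv,
      ((dq.fun_mul dm.sin).mul_const (a * sin (k * π * x))).deriv]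
    have q1 : μ * (2 - μ) ≤ 1 := by nlinarith [sq_nonneg (μ - 1)]
    have q0 : 0 ≤ μ * (2 - μ) := mul_nonneg hμ.1.le (by linarith [hμ.2])
    have b0 : |s μ| ≤ a := (hs μ hμ).trans (by nlinarith)
    have b1 : |a * sin (k * π * x)| ≤ a := by
      rw [abs_mul, abs_of_pos ha]; exact mul_le_of_le_one_right ha.le (abs_sin_le_one _)
    have b2 : |a * (cos (k * π * x) * (k * π))| ≤ 1 := by
      rw [show a * (cos (k * π * x) * (k * π)) = cos (k * π * x) by
        linear_combination cos (k * π * x) * hka]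
      exact abs_cos_le_one _
    have b3 : |a * (2 - 2 * μ) * sin (8 * π / a * (μ - (1 + a / 16))) +
        a * (μ * (2 - μ)) * (cos (8 * π / a * (μ - (1 + a / 16))) * (8 * π / a))| ≤ 28 := by
      have c1 := abs_le.1 (abs_sin_le_one (8 * π / a * (μ - (1 + a / 16))))
      have c2 := abs_le.1 (abs_cos_le_one (8 * π / a * (μ - (1 + a / 16))))
      generalize sin (8 * π / a * (μ - (1 + a / 16))) = u at c1
      generalize cos (8 * π / a * (μ - (1 + a / 16))) = v at c2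
      rw [show a * (μ * (2 - μ)) * (v * (8 * π / a)) = 8 * π * (μ * (2 - μ) * v) by field_simp]
      have c3 : |a * (2 - 2 * μ)| ≤ 1 := abs_le.2 ⟨by nlinarith [hμ.1, hμ.2], by nlinarith [hμ.1, hμ.2]⟩
      have c4 : |a * (2 - 2 * μ) * u| ≤ 1 := by
        rw [abs_mul]; exact mul_le_one₀ c3 (abs_nonneg _) (abs_le.2 c1)
      have c5 : -1 ≤ μ * (2 - μ) * v ∧ μ * (2 - μ) * v ≤ 1 := ⟨by nlinarith, by nlinarith⟩
      rw [abs_le] at c4 ⊢
      constructor <;> nlinarith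
    rw [abs_mul, abs_mul (s μ), abs_mul _ (a * sin _)]
    nlinarith [abs_nonneg (s μ), abs_nonneg (a * sin (k * π * x)),
      mul_le_mul b3 b1 (abs_nonneg _) (by norm_num), mul_le_mul b0 b2 (abs_nonneg _) ha.le,
      mul_le_mul b0 b1 (abs_nonneg _) ha.le]
  · refine (h m2 m3 (by linarith)).not_gt ⟨0, fun j hj => absurd hj (Nat.not_lt_zero j), ?_⟩
    change kneading _ _ 0 < kneading _ _ 0
    rw [k2, k3]; decide
  · refine (h m1 m2 (by linarith)).not_gt ⟨0, fun j hj => absurd hj (Nat.not_lt_zero j), ?_⟩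
    change kneading _ _ 0 < kneading _ _ 0
    rw [k1, k2]; decide

end Pool.Agent.Results.MP_ace4dd_an.NotMonotone
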